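import Pool.Agent.Helper18_TDE.Reg
import Pool.Agent.Helper3_TDE.Big
import Pool.Agent.Helper3_TDE.Mu
import Pool.Agent.Helper3_TDE.Rank
import Pool.Agent.Helper3_TDE.Spec
import Pool.Agent.Helper92_TDE.Srg
import Pool.Agent.Helper92_TDE.Val

/-!
# Graphs with three distance eigenvalues, the least of them `-3` (MP_1d6676_co, Q1)

`distMatrix G` is the distance matrix of `G` over the real numbers. A connected graph `G` has exactly
three distinct distance eigenvalues with least one `-3` if and only if it is a (noncomplete) strongly
regular graph with second largest adjacency eigenvalue `1`.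
-/

set_option autoImplicit false

namespace Pool.Agent.Results.MP_1d6676_co.Classification

open Pool.Agent Pool.Agent.Helper18_TDE

universe u

theorem result (V : Type u) [Fintype V] [DecidableEq V] (G : SimpleGraph V) [DecidableRel G.Adj]
    (hconn : G.Connected) :
    ((spectrum ℝ (distMatrix G)).ncard = 3 ∧ IsLeast (spectrum ℝ (distMatrix G)) (-3)) ↔
      (G ≠ ⊤ ∧ ∃ k l μ : ℕ, G.IsSRGWith (Fintype.card V) k l μ ∧
        IsGreatest (spectrum ℝ (G.adjMatrix ℝ) \ {(k : ℝ)}) 1) :=
  result_of Helper3_TDE.spec H92.intg H92.val Helper3_TDE.mu Helper3_TDE.rank Helper3_TDE.big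
    H92.srg H92.conv V G hconn

end Pool.Agent.Results.MP_1d6676_co.Classification
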